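import Mathlib

/-!
# MP_5ee2d0_ag: nef classes of numerical dimension two on Calabi-Yau threefolds

`X` is a smooth projective threefold with `K_X ~ 0` and `H^1(X, O_X) = 0`, `P` its Picard group, `T`
the intersection form, `c` the linear form given by the second Chern class, `e` the topological Euler
number (the third Chern number). `Sh` is a countable set of coherent sheaves on `X`; it contains
`O`, `Omega^1`, `Omega^2` and, for every rational curve `C` with normalisation `nu : P^1 -> X`, the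
kernel `K C` of the restriction `Omega^1 -> nu_* omega`. `h F i x` is the dimension of
`H^i(X, F(x))`. `H` is a very ample class, `S` a very general smooth surface in `|H|` and `hS F i x`
the dimension of `H^i(S, F(x)|S)`.

The fields of the structure `Threefold` are theorems of the literature for these data.
-/

namespace Pool.Agent.H48.NuTwo

/-- The data of the threefold: `P` the Picard group, `Sh` a countable set of coherent sheaves, `Dv`
the prime divisors, `Cu` the rational curves. -/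
structure Threefold (P Sh Dv Cu : Type*) [AddCommGroup P] where
  /-- the intersection form -/
  T : P →ₗ[ℤ] P →ₗ[ℤ] P →ₗ[ℤ] ℤ
  /-- the degree of the second Chern class -/
  c : P →ₗ[ℤ] ℤ
  /-- the topological Euler number -/
  e : ℤ
  /-- the structure sheaf -/
  O : Sh
  /-- the sheaf of 1-forms -/
  Om1 : Sh
  /-- the sheaf of 2-forms -/
  Om2 : Sh
  /-- the kernel of `Omega^1 -> nu_* omega` -/
  K : Cu → Sh
  /-- the dimension of `H^i(X, F(x))` -/
  h : Sh → ℕ → P → ℕ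
  /-- nef classes -/
  Nef : P → Prop
  /-- semiample classes -/
  SA : P → Prop
  /-- classes of effective divisors -/
  Eff : P → Prop
  /-- a very ample class -/
  H : P
  /-- the class of a prime divisor -/
  cl : Dv → P
  /-- the degree on a rational curve -/
  deg : Cu → P →ₗ[ℤ] ℤ
  /-- the dimension of `H^i(S, F(x)|S)` -/
  hS : Sh → ℕ → P → ℕ
  /-- classes whose restriction to `S` is ample -/
  AmpS : P → Prop
  symm12 : ∀ x y z, T x y z = T y x z
  symm23 : ∀ x y z, T x y z = T x z y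
  nef_zero : Nef 0
  nef_H : Nef H
  nef_add : ∀ x y, Nef x → Nef y → Nef (x + y)
  nef_mul : ∀ (k : ℤ) (x : P), 0 < k → (Nef (k • x) ↔ Nef x)
  sa_mul : ∀ (k : ℤ) (x : P), 0 < k → SA (k • x) → SA x
  /-- `H` is ample -/
  ample : ∀ z, ∃ k : ℤ, Nef (k • H + z)
  /-- intersection numbers of nef classes are not negative -/
  nonneg : ∀ x y z, Nef x → Nef y → Nef z → 0 ≤ T x y z
  /-- Miyaoka -/
  miyaoka : ∀ x, Nef x → 0 ≤ c x
  eff_iff : ∀ x, Eff x ↔ h O 0 x ≠ 0
  /-- Riemann-Roch theorem for `O` -/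
  rr0 : ∀ x, 12 * ((h O 0 x : ℤ) - h O 1 x + h O 2 x - h O 3 x) = 2 * T x x x + c x
  /-- Riemann-Roch theorem for `Omega^1` -/
  rr1 : ∀ x, 4 * ((h Om1 0 x : ℤ) - h Om1 1 x + h Om1 2 x - h Om1 3 x) =
    2 * T x x x - 3 * c x - 2 * e
  /-- Riemann-Roch theorem for `Omega^2` -/
  rr2 : ∀ x, 4 * ((h Om2 0 x : ℤ) - h Om2 1 x + h Om2 2 x - h Om2 3 x) =
    2 * T x x x - 3 * c x + 2 * e
  /-- Serre vanishing theorem -/
  serre : ∀ F x, ∃ j0 : ℤ, ∀ j, j0 ≤ j → ∀ i, 1 ≤ i → h F i (x + j • H) = 0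
  /-- the exact sequence `0 → F(x) → F(x + H) → F(x + H)|S → 0` -/
  restr : ∀ F i x, h F (i + 1) x ≤ h F (i + 1) (x + H) + hS F i (x + H)
  /-- Fujita vanishing theorem on `S` -/
  fujita : ∀ a, AmpS a → ∀ F x, ∃ k0 : ℤ, ∀ k, k0 ≤ k → ∀ y, Nef y → ∀ i, 1 ≤ i →
    hS F i (x + k • a + y) = 0
  /-- Nakai-Moishezon on the very general surface `S`, nef reduction: if the restriction of `x` to
  `S` is not ample then the curves `C` with `x.C = 0` cover `X` (and `x` is semiample), or cover a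
  surface on which `x` is numerically trivial -/
  nakai : ∀ x, Nef x → 0 < T H x x → AmpS x ∨ SA x ∨ ∃ D, ∀ w, T x (cl D) w = 0
  /-- Keel, Matsuki and McKernan: effective nef classes are semiample -/
  kmm : ∀ x, Nef x → Eff x → SA x
  /-- Lazić and Peternell: a nef class is semiample if infinitely many sheaves of twisted forms have
  sections -/
  lp : ∀ x, Nef x → (∀ n : ℤ, ∃ m, n ≤ m ∧ (h Om1 0 (m • x) ≠ 0 ∨ h Om2 0 (m • x) ≠ 0)) → SA x
  /-- `H^1(Omega^1(x)) → H^1(P^1, omega) → H^2((K C)(x))` if `x` has degree zero on `C` -/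
  curve : ∀ C x, deg C x = 0 → h Om1 1 x ≠ 0 ∨ h (K C) 2 x ≠ 0
  deg_nef : ∀ C x, Nef x → 0 ≤ deg C x
  /-- cone theorem for the pair `(X, εD)`: the extremal rays on which `D` is negative are generated
  by rational curves `C` with `-D.C ≤ b` -/
  cone : ∀ D, Eff D → ∃ b : ℤ, ∀ y, Nef y → (∀ C, b ≤ deg C y) → Nef (y + D)
  /-- Siu: a difference of nef classes is big if `A^3 > 3 A^2 B` -/
  siu : ∀ A B, Nef A → Nef B → 3 * T A A B < T A A A → ∃ k : ℤ, 0 < k ∧ Eff (k • (A - B))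

namespace Threefold

variable {P Sh Dv Cu : Type*} [AddCommGroup P] (X : Threefold P Sh Dv Cu)

/-- ample classes -/
def Ample (y : P) : Prop := ∃ k : ℤ, 0 < k ∧ X.Nef (k • y - X.H)

lemma nef_nat (x : P) (hx : X.Nef x) (j : ℕ) : X.Nef ((j : ℤ) • x) := by
  induction j with
  | zero => simpa using X.nef_zero
  | succ j ih =>
    have : ((j + 1 : ℕ) : ℤ) • x = (j : ℤ) • x + x := by
      push_cast
      rw [add_smul, one_smul]
    rw [this]
    exact X.nef_add _ _ ih hx

lemma nef_smul (x : P) (hx : X.Nef x) (k : ℤ) (hk : 0 ≤ k) : X.Nef (k • x) := by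
  obtain ⟨j, rfl⟩ := Int.eq_ofNat_of_zero_le hk
  exact X.nef_nat x hx j

/-- vanishing of `H^i(X, F(m x))`, `i ≥ 2`, for large `m` -/
lemma vanish (x : P) (ha : X.AmpS x) (F : Sh) :
    ∃ m0 : ℤ, ∀ m, m0 ≤ m → ∀ i, 2 ≤ i → X.h F i (m • x) = 0 := by
  obtain ⟨k0, hk0⟩ := X.fujita x ha F X.H
  refine ⟨k0, fun m hm i hi => ?_⟩
  obtain ⟨i', rfl⟩ : ∃ i', i = i' + 1 := ⟨i - 1, by omega⟩
  have hi' : 1 ≤ i' := by omega
  have key : ∀ j : ℕ, X.h F (i' + 1) (m • x) ≤ X.h F (i' + 1) (m • x + (j : ℤ) • X.H) := by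
    intro j
    induction j with
    | zero => simp
    | succ j ih =>
      have h1 := X.restr F i' (m • x + (j : ℤ) • X.H)
      have h2 := hk0 m hm _ (X.nef_nat X.H X.nef_H j) i' hi'
      have e1 : m • x + (j : ℤ) • X.H + X.H = X.H + m • x + (j : ℤ) • X.H := by abel
      have e2 : m • x + ((j + 1 : ℕ) : ℤ) • X.H = m • x + (j : ℤ) • X.H + X.H := by
        push_cast
        rw [add_smul, one_smul, add_assoc]
      rw [e2]
      rw [e1] at h1
      rw [h2, add_zero, ← e1] at h1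
      exact ih.trans h1
  obtain ⟨j0, hj0⟩ := X.serre F (m • x)
  have h3 := hj0 (max j0 0).toNat (by
    rw [Int.toNat_of_nonneg (le_max_right _ _)]
    exact le_max_left _ _) (i' + 1) (by omega)
  have h4 := key (max j0 0).toNat
  rw [h3] at h4
  exact Nat.le_zero.1 h4

/-- a nef class with sections is semiample -/
lemma not_eff (x : P) (hx : X.Nef x) (hs : ¬ X.SA x) (m : ℤ) (hm : 0 < m) :
    X.h X.O 0 (m • x) = 0 := by
  by_contra h
  exact hs (X.sa_mul m x hm (X.kmm _ ((X.nef_mul m x hm).2 hx) ((X.eff_iff _).2 h)))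

lemma cube_smul (m : ℤ) (x : P) : X.T (m • x) (m • x) (m • x) = m ^ 3 * X.T x x x := by
  simp only [map_smul, LinearMap.smul_apply, smul_eq_mul]
  ring

/-- if `x` is not semiample then `x^3 = 0` and `c x = 0` -/
lemma flat (x : P) (hx : X.Nef x) (ha : X.AmpS x) (hs : ¬ X.SA x) :
    X.T x x x = 0 ∧ X.c x = 0 := by
  obtain ⟨m0, hm0⟩ := X.vanish x ha X.O
  obtain ⟨m, hm⟩ : ∃ m, m = max m0 1 := ⟨_, rfl⟩
  have h1 : m0 ≤ m := by rw [hm]; exact le_max_left _ _
  have h2 : 1 ≤ m := by rw [hm]; exact le_max_right _ _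
  have hr := X.rr0 (m • x)
  rw [X.not_eff x hx hs m (by linarith), hm0 m h1 2 le_rfl, hm0 m h1 3 (by norm_num),
    X.cube_smul, map_smul, smul_eq_mul] at hr
  have h3 := X.nonneg x x x hx hx hx
  have h4 := X.miyaoka x hx
  have h5 : (0 : ℤ) ≤ X.h X.O 1 (m • x) := Int.natCast_nonneg _
  have h6 : 0 ≤ m ^ 3 * X.T x x x := mul_nonneg (by positivity) h3
  have h7 : 0 ≤ m * X.c x := mul_nonneg (by linarith) h4
  push_cast at hr
  have h8 : m ^ 3 * X.T x x x = 0 := by linarith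
  have h9 : m * X.c x = 0 := by linarith
  constructor
  · exact (mul_eq_zero.1 h8).resolve_left (by positivity)
  · exact (mul_eq_zero.1 h9).resolve_left (by linarith)

/-- if `x` is not semiample then `e = 0` and `H^1(Omega^1(m x)) = 0` for large `m` -/
lemma forms (x : P) (hx : X.Nef x) (ha : X.AmpS x) (hs : ¬ X.SA x) :
    X.e = 0 ∧ ∃ m0 : ℤ, ∀ m, m0 ≤ m → X.h X.Om1 1 (m • x) = 0 := by
  obtain ⟨hT, hc⟩ := X.flat x hx ha hs
  obtain ⟨m1, hm1⟩ := X.vanish x ha X.Om1
  obtain ⟨m2, hm2⟩ := X.vanish x ha X.Om2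
  obtain ⟨n, hn⟩ : ∃ n : ℤ, ∀ m, n ≤ m → X.h X.Om1 0 (m • x) = 0 ∧ X.h X.Om2 0 (m • x) = 0 := by
    by_contra hcon
    push Not at hcon
    refine hs (X.lp x hx fun n => ?_)
    obtain ⟨m, hm, h⟩ := hcon n
    refine ⟨m, hm, ?_⟩
    by_cases h0 : X.h X.Om1 0 (m • x) = 0
    · exact Or.inr (h h0)
    · exact Or.inl h0
  have key : ∀ m, m1 ≤ m → m2 ≤ m → n ≤ m →
      2 * (X.h X.Om1 1 (m • x) : ℤ) = X.e ∧ 2 * (X.h X.Om2 1 (m • x) : ℤ) = - X.e := by
    intro m h1 h2 h3
    obtain ⟨ha0, hb0⟩ := hn m h3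
    have r1 := X.rr1 (m • x)
    have r2 := X.rr2 (m • x)
    rw [ha0, hm1 m h1 2 le_rfl, hm1 m h1 3 (by norm_num), X.cube_smul, hT, map_smul, hc] at r1
    rw [hb0, hm2 m h2 2 le_rfl, hm2 m h2 3 (by norm_num), X.cube_smul, hT, map_smul, hc] at r2
    simp only [smul_eq_mul, mul_zero] at r1 r2
    push_cast at r1 r2
    constructor <;> linarith
  have he : X.e = 0 := by
    obtain ⟨m, hm⟩ : ∃ m, m = max (max m1 m2) n := ⟨_, rfl⟩
    obtain ⟨k1, k2⟩ := key m (by rw [hm]; exact (le_max_left _ _).trans (le_max_left _ _))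
      (by rw [hm]; exact (le_max_right _ _).trans (le_max_left _ _))
      (by rw [hm]; exact le_max_right _ _)
    have p1 : (0 : ℤ) ≤ X.h X.Om1 1 (m • x) := Int.natCast_nonneg _
    have p2 : (0 : ℤ) ≤ X.h X.Om2 1 (m • x) := Int.natCast_nonneg _
    linarith
  refine ⟨he, max (max m1 m2) n, fun m hm => ?_⟩
  obtain ⟨k1, k2⟩ := key m (((le_max_left _ _).trans (le_max_left _ _)).trans hm)
    (((le_max_right _ _).trans (le_max_left _ _)).trans hm) ((le_max_right _ _).trans hm)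
  rw [he] at k1
  have : (X.h X.Om1 1 (m • x) : ℤ) = 0 := by linarith
  exact_mod_cast this

/-- rational curves have positive degree -/
lemma curve_pos (x : P) (hx : X.Nef x) (ha : X.AmpS x) (hs : ¬ X.SA x) (C : Cu) :
    0 < X.deg C x := by
  rcases (X.deg_nef C x hx).eq_or_lt with h | h
  · exfalso
    obtain ⟨he, m1, hm1⟩ := X.forms x hx ha hs
    obtain ⟨m2, hm2⟩ := X.vanish x ha (X.K C)
    have h1 : X.deg C ((max m1 m2) • x) = 0 := by
      rw [map_smul, ← h, smul_zero]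
    rcases X.curve C _ h1 with h2 | h2
    · exact h2 (hm1 _ (le_max_left _ _))
    · exact h2 (hm2 _ (le_max_right _ _) 2 le_rfl)
  · exact h

/-- for every effective `D` some `b x + D` is nef -/
lemma nef_eff (x : P) (hx : X.Nef x) (hC : ∀ C, 0 < X.deg C x) (D : P) (hD : X.Eff D) :
    ∃ b : ℤ, X.Nef (b • x + D) := by
  obtain ⟨b, hb⟩ := X.cone D hD
  refine ⟨max b 0, hb _ (X.nef_smul x hx _ (le_max_right _ _)) fun C => ?_⟩
  rw [map_smul, smul_eq_mul]
  have h1 : 1 ≤ X.deg C x := hC C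
  have h2 : (0 : ℤ) ≤ max b 0 := le_max_right _ _
  have h3 : b ≤ max b 0 := le_max_left _ _
  nlinarith

/-- expansion of the cube -/
lemma siu_num (x A B : P) (n : ℤ) (hT : X.T x x x = 0) :
    X.T (n • x + A) (n • x + A) (n • x + A) - 3 * X.T (n • x + A) (n • x + A) B =
      3 * n ^ 2 * X.T x x (A - B) + n * (3 * X.T x A A - 6 * X.T x A B) +
        (X.T A A A - 3 * X.T A A B) := by
  simp only [map_add, map_smul, map_sub, LinearMap.add_apply, LinearMap.smul_apply, smul_eq_mul]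
  have h1 : X.T A x x = X.T x x A := by rw [X.symm12 A x x]; exact X.symm23 x A x
  have h2 : X.T x A x = X.T x x A := X.symm23 x A x
  have h3 : X.T A A x = X.T x A A := by rw [X.symm23 A A x]; exact X.symm12 A x A
  have h4 : X.T A x A = X.T x A A := X.symm12 A x A
  have h5 : X.T A x B = X.T x A B := X.symm12 A x B
  rw [h1, h2, h3, h4, h5, hT]
  ring

/-- the nef cone at `x` is the half space `x^2 z > 0` -/
lemma half_space (x : P) (hx : X.Nef x) (hT : X.T x x x = 0) (hC : ∀ C, 0 < X.deg C x) (z : P)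
    (hz : 0 < X.T x x z) : ∃ n0 : ℤ, ∀ n, n0 ≤ n → X.Nef (n • x + z) := by
  obtain ⟨j, hj⟩ := X.ample z
  obtain ⟨B, hB⟩ : ∃ B, B = (max j 0) • X.H := ⟨_, rfl⟩
  have hBn : X.Nef B := by rw [hB]; exact X.nef_smul _ X.nef_H _ (le_max_right _ _)
  obtain ⟨A, hA⟩ : ∃ A, A = B + z := ⟨_, rfl⟩
  have hAn : X.Nef A := by
    have e1 : A = (max j 0 - j) • X.H + (j • X.H + z) := by
      rw [hA, hB, sub_smul]; abel
    rw [e1]
    exact X.nef_add _ _ (X.nef_smul _ X.nef_H _ (by linarith [le_max_left j 0])) hj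
  obtain ⟨u, hu⟩ : ∃ u, u = 3 * X.T x A A - 6 * X.T x A B := ⟨_, rfl⟩
  obtain ⟨v, hv⟩ : ∃ v, v = X.T A A A - 3 * X.T A A B := ⟨_, rfl⟩
  obtain ⟨n, hn⟩ : ∃ n, n = |u| + |v| + 1 := ⟨_, rfl⟩
  have hn1 : 1 ≤ n := by rw [hn]; linarith [abs_nonneg u, abs_nonneg v]
  have hAB : A - B = z := by rw [hA]; abel
  have hbig := X.siu (n • x + A) B (X.nef_add _ _ (X.nef_smul x hx n (by linarith)) hAn) hBn (by
    have h1 := X.siu_num x A B n hT
    rw [hAB, ← hu, ← hv] at h1
    have h2 : 0 < 3 * n ^ 2 * X.T x x z + n * u + v := by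
      have h3 : 1 ≤ X.T x x z := hz
      have h4 : 3 * n ^ 2 ≤ 3 * n ^ 2 * X.T x x z := by nlinarith [sq_nonneg n]
      have h5 : -(n * |u|) ≤ n * u := by
        have := neg_abs_le u
        nlinarith
      have h6 : -|v| ≤ v := neg_abs_le v
      have h7 : n * |u| + |v| < 3 * n ^ 2 := by
        have a1 : |u| ≤ n := by rw [hn]; linarith [abs_nonneg v]
        have a2 : |v| ≤ n := by rw [hn]; linarith [abs_nonneg u]
        nlinarith [abs_nonneg u, abs_nonneg v]
      linarith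
    linarith)
  obtain ⟨k, hk, hE⟩ := hbig
  have e2 : n • x + A - B = n • x + z := by rw [hA]; abel
  rw [e2] at hE
  obtain ⟨b, hb⟩ := X.nef_eff x hx hC _ hE
  refine ⟨max (b + k * n) 0, fun N hN => ?_⟩
  rw [← X.nef_mul k _ hk]
  have h8 : b + k * n ≤ N := (le_max_left _ _).trans hN
  have h9 : 0 ≤ N := (le_max_right _ _).trans hN
  have e3 : k • (N • x + z) = (k * N - (b + k * n)) • x + (b • x + k • (n • x + z)) := by
    simp only [sub_smul, add_smul, smul_add, mul_smul]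
    abel
  rw [e3]
  refine X.nef_add _ _ (X.nef_smul x hx _ ?_) hb
  have : N ≤ k * N := by nlinarith
  linarith

/-- the ample cone at `x` is the half space `x^2 z > 0` -/
lemma ample_half (x : P) (hx : X.Nef x) (hT : X.T x x x = 0) (hC : ∀ C, 0 < X.deg C x) (z : P)
    (hz : 0 < X.T x x z) : ∃ n0 : ℤ, ∀ n, n0 ≤ n → X.Ample (n • x + z) := by
  obtain ⟨k, hk⟩ : ∃ k, k = X.T x x X.H + 1 := ⟨_, rfl⟩
  have hH := X.nonneg x x X.H hx hx X.nef_H
  have hk1 : 1 ≤ k := by rw [hk]; linarith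
  obtain ⟨n0, hn0⟩ := X.half_space x hx hT hC (k • z - X.H) (by
    rw [map_sub, map_smul, smul_eq_mul, hk]
    have : 1 ≤ X.T x x z := hz
    nlinarith)
  refine ⟨max n0 0, fun n hn => ⟨k, by linarith, ?_⟩⟩
  have h1 : n0 ≤ k * n := by
    have a1 : n0 ≤ n := (le_max_left _ _).trans hn
    have a2 : 0 ≤ n := (le_max_right _ _).trans hn
    nlinarith
  have h2 := hn0 (k * n) h1
  have e1 : k • (n • x + z) - X.H = (k * n) • x + (k • z - X.H) := by
    rw [smul_add, mul_smul]; abel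
  rw [e1]
  exact h2

/-- the second Chern class is a multiple of `x^2` -/
lemma chern (x : P) (hx : X.Nef x) (hT : X.T x x x = 0) (hc : X.c x = 0)
    (hC : ∀ C, 0 < X.deg C x) (hH : 0 < X.T x x X.H) (z : P) :
    X.T x x X.H * X.c z = X.c X.H * X.T x x z := by
  have key : ∀ w, 0 < X.T x x w → 0 ≤ X.c w := by
    intro w hw
    obtain ⟨n0, hn0⟩ := X.half_space x hx hT hC w hw
    have h1 := X.miyaoka _ (hn0 n0 le_rfl)
    rw [map_add, map_smul, hc, smul_zero, zero_add] at h1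
    exact h1
  obtain ⟨u, hu⟩ : ∃ u, u = X.T x x X.H • z - X.T x x z • X.H := ⟨_, rfl⟩
  have h1 : X.T x x u = 0 := by
    rw [hu, map_sub, map_smul, map_smul, smul_eq_mul, smul_eq_mul]
    ring
  have h2 : ∀ N : ℤ, 0 ≤ X.c X.H + N * X.c u := by
    intro N
    have h3 := key (X.H + N • u) (by rw [map_add, map_smul, h1, smul_zero, add_zero]; exact hH)
    rw [map_add, map_smul, smul_eq_mul] at h3
    exact h3
  have h4 : X.c u = 0 := by
    by_contra hne
    have h5 := h2 (-(X.c X.H + 1) * X.c u)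
    have h6 : 1 ≤ X.c u * X.c u := by
      rcases lt_or_gt_of_ne hne with h | h <;> nlinarith
    have h7 := h2 0
    nlinarith
  rw [hu, map_sub, map_smul, map_smul, smul_eq_mul, smul_eq_mul] at h4
  linarith

end Threefold

/-- **Main theorem.** Let `x` be a nef class with `x^2 ≠ 0`, and suppose that no prime divisor `D`
has `x.D = 0`. If `x` is not semiample then `x^3 = 0`, the Euler number is zero, the second Chern
class is a nonnegative multiple of `x^2`, every rational curve has positive degree, and for every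
class `z` with `x^2 z > 0` all classes `n x + z` with `n` large are ample. -/
theorem result {P Sh Dv Cu : Type*} [AddCommGroup P] (X : Threefold P Sh Dv Cu) (x : P)
    (hx : X.Nef x) (hsq : X.T X.H x x ≠ 0) (hD : ∀ D, ∃ w, X.T x (X.cl D) w ≠ 0)
    (hs : ¬ X.SA x) :
    X.T x x x = 0 ∧ X.e = 0 ∧
      (∃ a b : ℤ, 0 < a ∧ 0 ≤ b ∧ ∀ z, a * X.c z = b * X.T x x z) ∧
      (∀ C, 0 < X.deg C x) ∧
      ∀ z, 0 < X.T x x z → ∃ n0 : ℤ, ∀ n, n0 ≤ n → X.Ample (n • x + z) := by
  have hpos : 0 < X.T X.H x x :=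
    lt_of_le_of_ne (X.nonneg _ _ _ X.nef_H hx hx) (Ne.symm hsq)
  have ha : X.AmpS x := by
    rcases X.nakai x hx hpos with h | h | ⟨D, h⟩
    · exact h
    · exact absurd h hs
    · obtain ⟨w, hw⟩ := hD D
      exact absurd (h w) hw
  obtain ⟨hT, hc⟩ := X.flat x hx ha hs
  have hC := X.curve_pos x hx ha hs
  have hH : 0 < X.T x x X.H := by
    have : X.T x x X.H = X.T X.H x x := by rw [X.symm23 x x X.H]; exact X.symm12 x X.H x
    rw [this]
    exact hpos
  exact ⟨hT, (X.forms x hx ha hs).1, ⟨_, _, hH, X.miyaoka _ X.nef_H,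
    X.chern x hx hT hc hC hH⟩, hC, X.ample_half x hx hT hC⟩

end Pool.Agent.H48.NuTwo
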